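import Pool.Agent.Helper68.LM.Geo

/-!
# Project LM: module TC (from the maximal theorem to the arclength measure of a covered boundary)
-/

set_option autoImplicit false

open MeasureTheory Set Filter Topology
open scoped ENNReal RealInnerProductSpace

namespace Pool.Agent.Helper79.LM

open Pool.Agent.Helper68.LM
open Pool.Agent.Helper61.Lacunary (ConditionG LpBounded arclength avg lacMax)

theorem arc_lip_TC {a b κ : ℝ} {G : ℝ → Pl} (h : IsArc a b κ G) :
    ∀ t ∈ Icc a b, ∀ t' ∈ Icc a b, t ≤ t' → ‖G t' - G t‖ ≤ 2 * (t' - t) := by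
  obtain ⟨hab, c, u, v, φ, hu, hv, huv, hG, hφ, hφ2, hder⟩ := h
  intro t ht t' ht' htt
  rcases htt.eq_or_lt with rfl | hlt
  · simp
  have hsub : Icc t t' ⊆ Icc a b := Icc_subset_Icc ht.1 ht'.2
  have hsub' : Ioo t t' ⊆ Ioo a b := Ioo_subset_Ioo ht.1 ht'.2
  obtain ⟨s, hs, hs'⟩ := exists_deriv_eq_slope φ hlt (hφ.mono hsub)
    ((hφ2.differentiableOn (by norm_num)).mono hsub')
  have hpos : 0 < t' - t := sub_pos.2 hlt
  have h1 : |φ t' - φ t| ≤ t' - t := by
    have h := (hder s (hsub' hs)).1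
    rw [hs', abs_div, abs_of_pos hpos, div_le_one hpos] at h
    exact h
  have h2 : G t' - G t = (t' - t) • u + (φ t' - φ t) • v := by
    rw [hG, hG, sub_smul, sub_smul]
    abel
  rw [h2]
  calc ‖(t' - t) • u + (φ t' - φ t) • v‖ ≤ ‖(t' - t) • u‖ + ‖(φ t' - φ t) • v‖ := norm_add_le _ _
    _ = |t' - t| + |φ t' - φ t| := by
        rw [norm_smul, norm_smul, hu, hv, mul_one, mul_one, Real.norm_eq_abs, Real.norm_eq_abs]
    _ ≤ 2 * (t' - t) := by
        rw [abs_of_pos hpos]; linarith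

theorem arc_lip'_TC {a b κ : ℝ} {G : ℝ → Pl} (h : IsArc a b κ G) :
    ∀ t ∈ Icc a b, ∀ t' ∈ Icc a b, ‖G t' - G t‖ ≤ 2 * (b - a) := by
  intro t ht t' ht'
  rcases le_total t t' with h1 | h1
  · have := arc_lip_TC h t ht t' ht' h1
    linarith [ht.1, ht'.2]
  · have := arc_lip_TC h t' ht' t ht h1
    rw [norm_sub_rev] at this
    linarith [ht'.1, ht.2]

theorem arc_cont_TC {a b κ : ℝ} {G : ℝ → Pl} (h : IsArc a b κ G) : ContinuousOn G (Icc a b) := by
  obtain ⟨hab, c, u, v, φ, hu, hv, huv, hG, hφ, hφ2, hder⟩ := h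
  have : G = fun t => c + t • u + φ t • v := funext hG
  rw [this]
  exact (continuousOn_const.add (continuousOn_id.smul continuousOn_const)).add
    (hφ.smul continuousOn_const)

theorem arc_Bd_TC {a b κ R : ℝ} {G : ℝ → Pl} (h : IsArc a b κ G)
    (hR : ∀ t ∈ Icc a b, G t ∈ Metric.closedBall (0 : Pl) R) :
    Bd R (b - a) (arcMeasure a b G) := by
  have hm : AEMeasurable G (volume.restrict (Icc a b)) :=
    (arc_cont_TC h).aemeasurable measurableSet_Icc
  constructor
  · unfold arcMeasure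
    rw [Measure.map_apply_of_aemeasurable hm Metric.isClosed_closedBall.measurableSet.compl,
      Measure.restrict_apply' measurableSet_Icc]
    have : G ⁻¹' (Metric.closedBall 0 R)ᶜ ∩ Icc a b = ∅ := by
      rw [eq_empty_iff_forall_notMem]
      rintro t ⟨ht1, ht2⟩
      exact ht1 (hR t ht2)
    rw [this, measure_empty]
  · unfold arcMeasure
    rw [Measure.map_apply_of_aemeasurable hm MeasurableSet.univ, preimage_univ,
      Measure.restrict_apply_univ, Real.volume_Icc]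

/-- countable Minkowski inequality -/
theorem mink_TC (p : ℝ) (hp : 1 ≤ p) (F : ℕ → Pl → ℝ≥0∞) (hF : ∀ i, Measurable (F i)) :
    (∫⁻ x, (∑' i, F i x) ^ p) ^ (1 / p) ≤ ∑' i, (∫⁻ x, F i x ^ p) ^ (1 / p) := by
  have hp0 : 0 < p := by linarith
  have hp1 : 0 < 1 / p := by positivity
  have hfin : ∀ n : ℕ, (∫⁻ x, (∑ i ∈ Finset.range n, F i x) ^ p) ^ (1 / p) ≤
      ∑ i ∈ Finset.range n, (∫⁻ x, F i x ^ p) ^ (1 / p) := by
    intro n
    induction n with
    | zero =>
      simp only [Finset.range_zero, Finset.sum_empty, ENNReal.zero_rpow_of_pos hp0,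
        lintegral_zero, ENNReal.zero_rpow_of_pos hp1]
      exact le_rfl
    | succ n ih =>
      simp only [Finset.sum_range_succ]
      have hm : Measurable (fun x => ∑ i ∈ Finset.range n, F i x) :=
        Finset.measurable_sum _ (fun i _ => hF i)
      have h := ENNReal.lintegral_Lp_add_le (μ := (volume : Measure Pl)) hm.aemeasurable
        (hF n).aemeasurable hp
      exact h.trans (add_le_add ih le_rfl)
  have hsup : ∫⁻ x, (∑' i, F i x) ^ p = ⨆ n, ∫⁻ x, (∑ i ∈ Finset.range n, F i x) ^ p := by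
    rw [← lintegral_iSup]
    · apply lintegral_congr
      intro x
      rw [ENNReal.tsum_eq_iSup_nat]
      exact (ENNReal.orderIsoRpow p hp0).map_iSup (fun n => ∑ i ∈ Finset.range n, F i x)
    · intro n
      exact (Finset.measurable_sum _ (fun i _ => hF i)).pow_const p
    · intro n m hnm x
      exact ENNReal.rpow_le_rpow (Finset.sum_le_sum_of_subset (Finset.range_mono hnm)) hp0.le
  rw [hsup]
  have e := (ENNReal.orderIsoRpow (1 / p) hp1).map_iSup
    (fun n => ∫⁻ x, (∑ i ∈ Finset.range n, F i x) ^ p)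
  have e' : (⨆ n, ∫⁻ x, (∑ i ∈ Finset.range n, F i x) ^ p) ^ (1 / p) =
      ⨆ n, (∫⁻ x, (∑ i ∈ Finset.range n, F i x) ^ p) ^ (1 / p) := e
  rw [e']
  exact iSup_le fun n => (hfin n).trans (ENNReal.sum_le_tsum _)

/-- choice of the number of scales -/
theorem exists_N_TC (C ℓ κ : ℝ) (hC : 1 ≤ C) (hℓ : 0 < ℓ) (hκ : 0 < κ) (hκ1 : κ ≤ 1) :
    ∃ N : ℕ, C / (κ * ℓ ^ 2) ≤ 2 ^ N ∧ (N : ℝ) + 1 ≤
      (2 + Real.log C / Real.log 2 + 2 / Real.log 2) * (1 + Real.log (1 + 1 / (ℓ * κ))) := by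
  set X : ℝ := C / (κ * ℓ ^ 2) with hX
  set Y : ℝ := Real.log (1 + 1 / (ℓ * κ)) with hY
  have hC0 : 0 < C := by linarith
  have hX0 : 0 < X := by positivity
  have hl2 : 0 < Real.log 2 := Real.log_pos (by norm_num)
  have hinv : 0 < 1 / (ℓ * κ) := by positivity
  have hY0 : 0 ≤ Y := Real.log_nonneg (by linarith)
  have hlC : 0 ≤ Real.log C := Real.log_nonneg hC
  have hXle : X ≤ C * (1 + 1 / (ℓ * κ)) ^ 2 := by
    have h1 : 1 / (κ * ℓ ^ 2) ≤ (1 / (ℓ * κ)) ^ 2 := by
      rw [div_pow, one_pow]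
      apply one_div_le_one_div_of_le (by positivity)
      have : (ℓ * κ) ^ 2 = κ * ℓ ^ 2 * κ := by ring
      rw [this]
      exact mul_le_of_le_one_right (by positivity) hκ1
    have h2 : (1 / (ℓ * κ)) ^ 2 ≤ (1 + 1 / (ℓ * κ)) ^ 2 :=
      pow_le_pow_left₀ hinv.le (by linarith) 2
    have h3 : X = C * (1 / (κ * ℓ ^ 2)) := by rw [hX]; ring
    rw [h3]
    exact mul_le_mul_of_nonneg_left (h1.trans h2) hC0.le
  have hlX : Real.log X ≤ Real.log C + 2 * Y := by
    have h1 := Real.log_le_log hX0 hXle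
    rw [Real.log_mul hC0.ne' (by positivity), Real.log_pow] at h1
    push_cast at h1
    exact h1
  refine ⟨⌈Real.logb 2 X⌉₊, ?_, ?_⟩
  · calc X = (2 : ℝ) ^ (Real.logb 2 X) := (Real.rpow_logb (by norm_num) (by norm_num) hX0).symm
      _ ≤ (2 : ℝ) ^ ((⌈Real.logb 2 X⌉₊ : ℕ) : ℝ) :=
          Real.rpow_le_rpow_of_exponent_le (by norm_num) (Nat.le_ceil _)
      _ = 2 ^ ⌈Real.logb 2 X⌉₊ := Real.rpow_natCast _ _
  · have h0 : 0 ≤ Real.log C / Real.log 2 := by positivity
    have h0' : 0 ≤ 2 / Real.log 2 := by positivity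
    rcases le_or_gt 0 (Real.logb 2 X) with hl | hl
    · have h1 := Nat.ceil_lt_add_one hl
      have h2 : Real.logb 2 X ≤ (Real.log C + 2 * Y) / Real.log 2 := by
        rw [Real.logb]
        exact div_le_div_of_nonneg_right hlX hl2.le
      have h3 : (Real.log C + 2 * Y) / Real.log 2 = Real.log C / Real.log 2 +
          2 / Real.log 2 * Y := by ring
      rw [h3] at h2
      nlinarith [mul_nonneg h0 hY0, mul_nonneg h0' hY0]
    · have h1 : ⌈Real.logb 2 X⌉₊ = 0 := Nat.ceil_eq_zero.2 hl.le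
      rw [h1]
      push_cast
      nlinarith [mul_nonneg h0 hY0, mul_nonneg h0' hY0]

/-- a measurable majorant of the absolute value -/
theorem exists_maj_TC (f : Pl → ℝ) (hf : AEStronglyMeasurable f (volume : Measure Pl)) :
    ∃ h : Pl → ℝ≥0∞, Measurable h ∧ (∀ x, ‖f x‖ₑ ≤ h x) ∧ h =ᵐ[volume] fun x => ‖f x‖ₑ := by
  classical
  set f₀ := hf.mk f with hf₀
  have hm : Measurable f₀ := hf.stronglyMeasurable_mk.measurable
  have hae : f =ᵐ[volume] f₀ := hf.ae_eq_mk
  set S := toMeasurable volume {x | f x ≠ f₀ x} with hS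
  have hSm : MeasurableSet S := measurableSet_toMeasurable _ _
  have hS0 : volume S = 0 := by
    rw [hS, measure_toMeasurable]
    exact hae
  refine ⟨fun x => if x ∈ S then ⊤ else ‖f₀ x‖ₑ,
    Measurable.ite hSm measurable_const hm.enorm, ?_, ?_⟩
  · intro x
    by_cases hx : x ∈ S
    · simp only [if_pos hx]; exact le_top
    · simp only [if_neg hx]
      have : f x = f₀ x := by
        by_contra hne
        exact hx (subset_toMeasurable _ _ hne)
      rw [this]
  · have h1 : ∀ᵐ x ∂(volume : Measure Pl), x ∉ S := measure_eq_zero_iff_ae_notMem.1 hS0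
    filter_upwards [h1] with x hx
    simp only [if_neg hx]
    have : f x = f₀ x := by
      by_contra hne
      exact hx (subset_toMeasurable _ _ hne)
    rw [this]

theorem hTC (hHA : StHA) (hAD : StAD) (hDOM : StDOM) : StTC := by
  classical
  intro Ω p hb hp hcov
  obtain ⟨G, a, b, κ, hArc, hnull, hsum⟩ := hcov
  have hp0 : 0 < p := by linarith
  have hp1 : 0 < 1 / p := by positivity
  set Y : ℕ → ℝ := fun i => Real.log (1 + 1 / ((b i - a i) * κ i)) with hY
  set s : ℕ → ℝ := fun i => (b i - a i) * (1 + Y i) ^ (1 / p) with hs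
  have hℓ : ∀ i, 0 < b i - a i := fun i => sub_pos.2 (hArc i).1.1
  have hκ : ∀ i, 0 < κ i := fun i => (hArc i).2.1
  have hY0 : ∀ i, 0 ≤ Y i := by
    intro i
    apply Real.log_nonneg
    have := mul_pos (hℓ i) (hκ i)
    have : 0 < 1 / ((b i - a i) * κ i) := by positivity
    linarith
  have hs0 : ∀ i, b i - a i ≤ s i := by
    intro i
    have h1 : (1 : ℝ) ≤ (1 + Y i) ^ (1 / p) :=
      Real.one_le_rpow (by linarith [hY0 i]) hp1.le
    exact le_mul_of_one_le_right (hℓ i).le h1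
  have hspos : ∀ i, 0 ≤ s i := fun i => (hℓ i).le.trans (hs0 i)
  have hsummable : Summable s := hsum
  set M : ℝ := ∑' i, s i with hM
  have hM0 : 0 ≤ M := tsum_nonneg hspos
  have hMle : ∀ i, b i - a i ≤ M := fun i =>
    (hs0 i).trans (hsummable.le_tsum i (fun j _ => hspos j))
  obtain ⟨R₀, hR₀⟩ : ∃ R₀, frontier Ω ⊆ Metric.closedBall (0 : Pl) R₀ :=
    (hb.closure.subset frontier_subset_closure).subset_closedBall 0
  set R : ℝ := |R₀| + 2 * M + 1 with hR
  have hRpos : 0 < R := by positivity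
  set I : Set ℕ := {i | (G i '' Icc (a i) (b i) ∩ Metric.closedBall (0 : Pl) R₀).Nonempty} with hI
  have hin : ∀ i ∈ I, ∀ t ∈ Icc (a i) (b i), G i t ∈ Metric.closedBall (0 : Pl) R := by
    rintro i ⟨_, ⟨t₀, ht₀, rfl⟩, hball⟩ t ht
    rw [mem_closedBall_zero_iff] at hball ⊢
    have h1 := arc_lip'_TC (hArc i).1 t₀ ht₀ t ht
    have h2 : ‖G i t‖ ≤ ‖G i t - G i t₀‖ + ‖G i t₀‖ := by
      have := norm_add_le (G i t - G i t₀) (G i t₀)
      rwa [sub_add_cancel] at this
    have h3 := hMle i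
    have h4 := le_abs_self R₀
    linarith
  set ν : ℕ → Measure Pl := fun i => if i ∈ I then arcMeasure (a i) (b i) (G i) else 0 with hν
  have hdom : arclength Ω ≤ Measure.sum (fun i => (2 : ℝ≥0∞) • ν i) := by
    rw [Measure.le_iff]
    intro B hB
    rw [Measure.sum_apply _ hB]
    unfold arclength
    rw [Measure.restrict_apply hB]
    have hsub : B ∩ frontier Ω ⊆ (⋃ i, (G i '' Icc (a i) (b i) ∩ (B ∩ frontier Ω))) ∪
        (frontier Ω \ ⋃ i, G i '' Icc (a i) (b i)) := by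
      intro y hy
      by_cases h : y ∈ ⋃ i, G i '' Icc (a i) (b i)
      · left
        obtain ⟨i, hi⟩ := mem_iUnion.1 h
        exact mem_iUnion.2 ⟨i, hi, hy⟩
      · right
        exact ⟨hy.2, h⟩
    have h1 := (measure_mono (μ := (μH[1] : Measure Pl)) hsub).trans (measure_union_le _ _)
    rw [hnull, add_zero] at h1
    refine h1.trans ((measure_iUnion_le _).trans (ENNReal.tsum_le_tsum fun i => ?_))
    by_cases hi : i ∈ I
    · have h2 : ((2 : ℝ≥0∞) • ν i) B = 2 * arcMeasure (a i) (b i) (G i) B := by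
        rw [Measure.smul_apply, smul_eq_mul, hν]
        simp only [if_pos hi]
      rw [h2]
      have h3 : G i '' Icc (a i) (b i) ∩ (B ∩ frontier Ω) ⊆ G i '' Icc (a i) (b i) ∩ B :=
        fun y hy => ⟨hy.1, hy.2.1⟩
      exact (measure_mono h3).trans (hDOM _ _ _ _ (hArc i).1 B hB)
    · have h2 : G i '' Icc (a i) (b i) ∩ (B ∩ frontier Ω) = ∅ := by
        rw [eq_empty_iff_forall_notMem]
        rintro y ⟨hy1, hy2, hy3⟩
        exact hi ⟨y, hy1, hR₀ hy3⟩
      rw [h2, measure_empty]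
      exact bot_le
  obtain ⟨C, hC1, hAD'⟩ := hAD
  obtain ⟨C₁, hC₁, hHA'⟩ := hHA p R hp hRpos
  set C' : ℝ := 2 + Real.log C / Real.log 2 + 2 / Real.log 2 with hC'
  have hl2 : 0 < Real.log 2 := Real.log_pos (by norm_num)
  have hC'0 : 0 < C' := by
    have : 0 ≤ Real.log C := Real.log_nonneg hC1
    positivity
  have hN : ∀ i, ∃ N : ℕ, C / (κ i * (b i - a i) ^ 2) ≤ 2 ^ N ∧
      (N : ℝ) + 1 ≤ C' * (1 + Y i) := fun i =>
    exists_N_TC C (b i - a i) (κ i) hC1 (hℓ i) (hκ i) (hArc i).2.2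
  choose N hN1 hN2 using hN
  set K : ℝ := 2 * (C₁ * C') ^ (1 / p) with hK
  have hK0 : 0 ≤ K := by positivity
  have hνfin : ∀ i, IsFiniteMeasure (ν i) := by
    intro i
    by_cases hi : i ∈ I
    · have h1 := (arc_Bd_TC (hArc i).1 (hin i hi)).2
      refine ⟨?_⟩
      rw [hν]
      simp only [if_pos hi]
      exact lt_of_le_of_lt h1 ENNReal.ofReal_lt_top
    · rw [hν]
      simp only [if_neg hi]
      infer_instance
  refine ⟨K * M, fun f hf => ?_⟩
  obtain ⟨h, hhm, hhf, hhae⟩ := exists_maj_TC f hf.aestronglyMeasurable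
  have hnorm : (∫⁻ x, h x ^ p) ^ (1 / p) = eLpNorm f (ENNReal.ofReal p) volume := by
    rw [eLpNorm_eq_lintegral_rpow_enorm_toReal (by simpa using hp0) ENNReal.ofReal_ne_top,
      ENNReal.toReal_ofReal hp0.le]
    congr 1
    apply lintegral_congr_ae
    filter_upwards [hhae] with x hx
    rw [hx]
  set F : ℕ → Pl → ℝ≥0∞ := fun i x => 2 * ⨆ k : ℤ, ∫⁻ y, h (x - (2 : ℝ) ^ k • y) ∂(ν i) with hF
  have hFm0 : ∀ i, Measurable (fun x => ⨆ k : ℤ, ∫⁻ y, h (x - (2 : ℝ) ^ k • y) ∂(ν i)) := by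
    intro i
    have := hνfin i
    apply Measurable.iSup
    intro k
    have h1 : Measurable (fun z : Pl × Pl => h (z.1 - (2 : ℝ) ^ k • z.2)) :=
      hhm.comp (measurable_fst.sub ((measurable_const_smul ((2 : ℝ) ^ k)).comp measurable_snd))
    exact h1.lintegral_prod_right'
  have hFm : ∀ i, Measurable (F i) := fun i => (hFm0 i).const_mul 2
  have hle : ∀ x, lacMax Ω f x ≤ ∑' i, F i x := by
    intro x
    unfold lacMax
    apply iSup_le
    intro k
    have h1 : ENNReal.ofReal |avg Ω k f x| ≤ ∫⁻ y, h (x - (2 : ℝ) ^ k • y) ∂(arclength Ω) := by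
      have h2 : ENNReal.ofReal |avg Ω k f x| = ‖avg Ω k f x‖ₑ := by
        rw [← Real.norm_eq_abs, ofReal_norm]
      rw [h2]
      unfold avg
      exact (enorm_integral_le_lintegral_enorm _).trans (lintegral_mono fun y => hhf _)
    refine h1.trans ((lintegral_mono' hdom le_rfl).trans ?_)
    rw [lintegral_sum_measure]
    apply ENNReal.tsum_le_tsum
    intro i
    rw [lintegral_smul_measure, smul_eq_mul]
    exact mul_le_mul_right (le_iSup (fun k : ℤ => ∫⁻ y, h (x - (2 : ℝ) ^ k • y) ∂(ν i)) k) _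
  have hbound : ∀ i, (∫⁻ x, F i x ^ p) ^ (1 / p) ≤
      ENNReal.ofReal (K * s i) * (∫⁻ x, h x ^ p) ^ (1 / p) := by
    intro i
    by_cases hi : i ∈ I
    · have hνi : ν i = arcMeasure (a i) (b i) (G i) := by
        rw [hν]; simp only [if_pos hi]
      have hBd : Bd R (b i - a i) (ν i) := by
        rw [hνi]; exact arc_Bd_TC (hArc i).1 (hin i hi)
      have hDec : Dec (b i - a i) (N i) (ν i) := by
        rw [hνi]; exact hAD' _ _ _ _ (hArc i).1 (hκ i) (hArc i).2.2 (N i) (hN1 i)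
      have h1 := hHA' (ν i) (b i - a i) (N i) hBd (hℓ i) hDec h hhm
      have h2 : ∫⁻ x, F i x ^ p ≤ 2 ^ p * (ENNReal.ofReal (C₁ * (b i - a i) ^ p * (N i + 1)) *
          ∫⁻ x, h x ^ p) := by
        have h3 : ∀ x, F i x ^ p = 2 ^ p *
            (⨆ k : ℤ, ∫⁻ y, h (x - (2 : ℝ) ^ k • y) ∂(ν i)) ^ p := by
          intro x
          exact ENNReal.mul_rpow_of_nonneg _ _ hp0.le
        rw [lintegral_congr h3, lintegral_const_mul _ ((hFm0 i).pow_const p)]
        exact mul_le_mul_right h1 _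
      have hreal0 : 0 ≤ C₁ * (b i - a i) ^ p * ((N i : ℝ) + 1) := by
        have := (hℓ i).le
        positivity
      have hreal : (C₁ * (b i - a i) ^ p * ((N i : ℝ) + 1)) ^ (1 / p) ≤
          (C₁ * C') ^ (1 / p) * s i := by
        have h4 : C₁ * (b i - a i) ^ p * ((N i : ℝ) + 1) ≤
            (C₁ * C') * ((b i - a i) ^ p * (1 + Y i)) := by
          have h5 : 0 ≤ C₁ * (b i - a i) ^ p := by
            have := (hℓ i).le
            positivity
          calc C₁ * (b i - a i) ^ p * ((N i : ℝ) + 1)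
              ≤ C₁ * (b i - a i) ^ p * (C' * (1 + Y i)) := mul_le_mul_of_nonneg_left (hN2 i) h5
            _ = (C₁ * C') * ((b i - a i) ^ p * (1 + Y i)) := by ring
        refine (Real.rpow_le_rpow hreal0 h4 hp1.le).trans (le_of_eq ?_)
        have hY1 : 0 ≤ 1 + Y i := by linarith [hY0 i]
        have hlp : 0 ≤ (b i - a i) ^ p := Real.rpow_nonneg (hℓ i).le _
        rw [Real.mul_rpow (by positivity) (mul_nonneg hlp hY1), Real.mul_rpow hlp hY1, one_div,
          Real.rpow_rpow_inv (hℓ i).le hp0.ne', hs, one_div]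
      refine (ENNReal.rpow_le_rpow h2 hp1.le).trans ?_
      rw [ENNReal.mul_rpow_of_nonneg _ _ hp1.le, ENNReal.mul_rpow_of_nonneg _ _ hp1.le, ← mul_assoc]
      refine mul_le_mul_left ?_ _
      have h6 : ((2 : ℝ≥0∞) ^ p) ^ (1 / p) = ENNReal.ofReal 2 := by
        rw [← ENNReal.rpow_mul, mul_one_div, div_self hp0.ne', ENNReal.rpow_one]
        norm_num
      rw [h6, ENNReal.ofReal_rpow_of_nonneg hreal0 hp1.le,
        ← ENNReal.ofReal_mul (by norm_num : (0 : ℝ) ≤ 2)]
      apply ENNReal.ofReal_le_ofReal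
      rw [hK, mul_assoc (2 : ℝ)]
      have h7 : (0 : ℝ) ≤ 2 := by norm_num
      exact mul_le_mul_of_nonneg_left hreal h7
    · have hνi : ν i = 0 := by
        rw [hν]; simp only [if_neg hi]
      have h1 : ∀ x, F i x = 0 := by
        intro x
        show 2 * ⨆ k : ℤ, ∫⁻ y, h (x - (2 : ℝ) ^ k • y) ∂(ν i) = 0
        rw [hνi]
        simp
      have h2 : ∫⁻ x, F i x ^ p = 0 := by
        have h3 : ∀ x, F i x ^ p = 0 := fun x => by
          rw [h1 x, ENNReal.zero_rpow_of_pos hp0]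
        rw [lintegral_congr h3, lintegral_zero]
      rw [h2, ENNReal.zero_rpow_of_pos hp1]
      exact bot_le
  calc (∫⁻ x, lacMax Ω f x ^ p) ^ (1 / p)
      ≤ (∫⁻ x, (∑' i, F i x) ^ p) ^ (1 / p) := by
        apply ENNReal.rpow_le_rpow _ hp1.le
        exact lintegral_mono fun x => ENNReal.rpow_le_rpow (hle x) hp0.le
    _ ≤ ∑' i, (∫⁻ x, F i x ^ p) ^ (1 / p) := mink_TC p hp.le F hFm
    _ ≤ ∑' i, ENNReal.ofReal (K * s i) * (∫⁻ x, h x ^ p) ^ (1 / p) :=
        ENNReal.tsum_le_tsum hbound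
    _ = ENNReal.ofReal (K * M) * eLpNorm f (ENNReal.ofReal p) volume := by
        rw [ENNReal.tsum_mul_right, hnorm, hM, ← tsum_mul_left,
          ENNReal.ofReal_tsum_of_nonneg (fun i => mul_nonneg hK0 (hspos i))
            (hsummable.mul_left K)]

end Pool.Agent.Helper79.LM
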