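import Pool.Agent.Helper68.LM.St
import Pool.Agent.Helper67.Wav.Four

/-!
# Project LM: module PL (Plancherel for bounded functions with bounded support)
-/

set_option autoImplicit false

open MeasureTheory Set Filter Topology
open scoped ENNReal RealInnerProductSpace FourierTransform

namespace Pool.Agent.Helper79.LM

open Pool.Agent.Helper68.LM

theorem memLp_of_BB {g : Pl → ℝ} (hg : BB g) (p : ℝ≥0∞) :
    MemLp (fun x => (g x : ℂ)) p (volume : Measure Pl) := by
  obtain ⟨hm, K, hK, h0⟩ := hg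
  have hmeas : Measurable (fun x => (g x : ℂ)) := Complex.measurable_ofReal.comp hm
  have hind : (Metric.closedBall (0 : Pl) K).indicator (fun x => (g x : ℂ)) =
      fun x => (g x : ℂ) := by
    rw [Set.indicator_eq_self]
    intro x hx
    rw [mem_closedBall_zero_iff]
    by_contra hlt
    push Not at hlt
    apply hx
    show ((g x : ℝ) : ℂ) = 0
    rw [h0 x hlt, Complex.ofReal_zero]
  rw [← hind]
  rw [memLp_indicator_iff_restrict Metric.isClosed_closedBall.measurableSet]
  have : IsFiniteMeasure ((volume : Measure Pl).restrict (Metric.closedBall (0 : Pl) K)) :=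
    ⟨by rw [Measure.restrict_apply_univ]; exact measure_closedBall_lt_top⟩
  apply MemLp.of_bound hmeas.aestronglyMeasurable K
  filter_upwards with x
  rw [Complex.norm_real, Real.norm_eq_abs]
  exact hK x

theorem hPL : StPL := by
  intro g hg
  have h1 : Integrable (fun x => (g x : ℂ)) (volume : Measure Pl) :=
    memLp_one_iff_integrable.1 (memLp_of_BB hg 1)
  have h2 : MemLp (fun x => (g x : ℂ)) 2 (volume : Measure Pl) := memLp_of_BB hg 2
  have hcont : Continuous (𝓕 (fun x => (g x : ℂ)) : Pl → ℂ) := by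
    have := VectorFourier.fourierIntegral_continuous (μ := (volume : Measure Pl))
      Real.continuous_fourierChar (L := innerₗ Pl) continuous_inner h1
    exact this
  refine ⟨hcont.measurable, ?_⟩
  have h3 : ‖(𝓕 (h2.toLp _) : Lp ℂ 2 (volume : Measure Pl))‖ = ‖h2.toLp _‖ :=
    Lp.norm_fourier_eq (h2.toLp _)
  have h4 : ‖(𝓕 (h2.toLp _) : Lp ℂ 2 (volume : Measure Pl))‖ₑ = ‖h2.toLp _‖ₑ := by
    rw [← ofReal_norm, ← ofReal_norm, h3]
  rw [Lp.enorm_def, Lp.enorm_def] at h4
  have h5 : eLpNorm (𝓕 (h2.toLp _) : Lp ℂ 2 (volume : Measure Pl)) 2 volume =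
      eLpNorm (𝓕 (fun x => (g x : ℂ)) : Pl → ℂ) 2 volume :=
    eLpNorm_congr_ae (Wav.fourier_toLp (n := 2) h1 h2)
  have h6 : eLpNorm (h2.toLp _) 2 volume = eLpNorm (fun x => (g x : ℂ)) 2 volume :=
    eLpNorm_congr_ae h2.coeFn_toLp
  rw [h5, h6] at h4
  have key : ∀ f : Pl → ℂ, ∫⁻ z, ‖f z‖ₑ ^ 2 = (eLpNorm f 2 volume) ^ 2 := by
    intro f
    rw [eLpNorm_eq_lintegral_rpow_enorm_toReal (by norm_num) (by norm_num), ← ENNReal.rpow_natCast,
      ← ENNReal.rpow_mul]
    norm_num
  have h7 : ∫⁻ x, ‖g x‖ₑ ^ 2 = ∫⁻ x, ‖(g x : ℂ)‖ₑ ^ 2 := by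
    apply lintegral_congr
    intro x
    congr 1
    rw [← ofReal_norm, ← ofReal_norm, Complex.norm_real]
  rw [h7, key, key]
  show (eLpNorm (𝓕 (fun x => (g x : ℂ)) : Pl → ℂ) 2 volume) ^ 2 = _
  rw [h4]

end Pool.Agent.Helper79.LM
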